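import Pool.Agent.W584.LSAExt

/-! For every field `k` there is a finite-dimensional local symmetric `k`-algebra with a
nonprojective finitely generated module without self-extensions. -/

namespace Pool.Agent.W584.Old.RigidLocalSymmetric

universe u

theorem result (k : Type u) [Field k] :
    ∃ (A : Type u) (_ : Ring A) (_ : Algebra k A),
      Module.Finite k A ∧ IsLocalRing A ∧
      (∃ e : A ≃ₗ[k] Module.Dual k A, ∀ a b c : A,
        e (a * b) c = e b (c * a) ∧ e (b * a) c = e b (a * c)) ∧
      Module.Injective A A ∧
      ∃ (M : Type u) (_ : AddCommGroup M) (_ : Module A M),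
        Module.Finite A M ∧ ¬ Module.Projective A M ∧
        Subsingleton (CategoryTheory.Abelian.Ext (ModuleCat.of A M) (ModuleCat.of A M) 1) :=
  ⟨W584.LSA k, inferInstance, inferInstance, inferInstance, inferInstance,
    ⟨W584.LSA.formEquiv, fun a b c => W584.LSA.formEquiv_bimodule a b c⟩,
    W584.LSA.baer.injective,
    W584.LSM k, inferInstance, inferInstance, inferInstance, W584.LSM.not_projective,
    W584.LSM.ext_one⟩

end Pool.Agent.W584.Old.RigidLocalSymmetric
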